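import Pool.Agent.Lib.MP_40d15f_co.Main

/-!
# Edge thresholds for fixed-length paths under a minimum degree condition

The value of `f_{nk}(i)` for all `k ≥ 3`, all `2 ≤ i ≤ n` and all `n ≥ 100 (k+2)^3`.
-/

namespace Pool.Agent.Results.MP_40d15f_co.LargeOrder

/-- Property `P_i`: every two distinct vertices are the end vertices of a path with exactly `i`
vertices. -/
def HasPathProp {V : Type} (G : SimpleGraph V) (i : ℕ) : Prop :=
  ∀ x y : V, x ≠ y → ∃ p : G.Walk x y, p.IsPath ∧ p.support.length = i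

open Classical in
/-- All `m` such that every graph of order `n`, with minimum degree at least `k` and at least `m`
edges, satisfies `P_i`. The number `f_{nk}(i)` is its least element. -/
def Forcing (n k i : ℕ) : Set ℕ :=
  {m | ∀ G : SimpleGraph (Fin n), (∀ v, k ≤ G.degree v) → m ≤ G.edgeFinset.card →
    HasPathProp G i}

/-- `N n j = (n-j)(n-j-1)/2` (written `n_j` in the problem) -/
def N (n j : ℕ) : ℕ := (n - j) * (n - j - 1) / 2

/-- The claimed value of `f_{nk}(i)`. -/
def value (n k i : ℕ) : ℕ :=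
  if i = 2 then N n 0
  else if i = 3 then N n 1 + 2
  else if i = 4 then N n 2 + (3 * k - 1) - k * (k - 1) / 2
  else if i = 5 then N n k + 2 * k + (k - 1) / 2
  else if i = n then N n (k - 1) + k * (k - 1) + 1
  else if n - k + 2 ≤ i then N n (k - 1) + (k - 1) * (k + 2) / 2 + 1
  else if i = n - k + 1 then N n k + k * (k + 3) / 2 + 1
  else if k + 2 ≤ i then N n k + k * (k + 1) / 2 + 1
  else if i = 6 then N n (k + 1) + k * (k + 3) / 2
  else N n (k + 1) + k * (k + 1) / 2 + 2

/-- `f_{nk}(i) = value n k i` for all `k ≥ 3`, `n ≥ 100 (k+2)^3` and `2 ≤ i ≤ n`. -/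
theorem result (n k i : ℕ) (hk : 3 ≤ k) (hn : 100 * (k + 2) ^ 3 ≤ n) (hi : 2 ≤ i)
    (hin : i ≤ n) : IsLeast (Forcing n k i) (value n k i) :=
  Pool.MP40.main hk hn hi hin

end Pool.Agent.Results.MP_40d15f_co.LargeOrder
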